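import Pool.Agent.Run7.h3.PM.Adl5

/-!
# Manin's conjecture over `ℚ` for configurations of points in projective space, all heights

Let `2 ≤ k`, `k + 2 ≤ n` and `5 ≤ n`. The varieties `X` considered here are the smooth quotients
`(ℙ^(k-1))^n // SL_k`, which are also the quotients of the Grassmannian `G(k, n)` by its maximal
torus. They are the quotients `X_θ` of the set of the stable `k × n` matrices by `GL_k` and the
scalings of the columns, where stability is defined by weights `θ` of the columns. We take all
generic weights `θ` such that every `θ`-stable matrix is semistable for equal weights, i.e. such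
that `X_θ` maps to the quotient for equal weights, which is its anticanonical model; the map is
small, `X_θ` is a smooth projective variety of dimension `(k - 1) (n - k - 1)` with Picard number
`n`, and its anticanonical class, which is the class of degree `k` in every column, is big and nef
(weak Fano). There are such weights for all `k` and `n`: weight `k + 1` for one column, weight `k`
for the other columns. When `k` and `n` are coprime one can take equal weights, and `X` is Fano.

The open set `U` of `X` is the one where no maximal minor vanishes. The anticanonical sections are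
spanned by the monomials in the maximal minors which have degree `k` in every column. The height
for the adelic metric given by these monomials (the maximum norm at every place) is `ht`, and any
other adelic metric on the anticanonical bundle differs from it by positive continuous functions
on `X(ℚ_v)` for finitely many places `v`.
-/

set_option autoImplicit false

namespace Pool.Agent.Results.MP_1acd66_nt.ConfigurationsAllHeights

open Finset Module Filter Topology

/-- the maximal minor of `V` with the columns `f 0, f 1, ..., f (k - 1)` -/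
def minor {K : Type} [Field K] {k n : ℕ} (V : Matrix (Fin k) (Fin n) K) (f : Fin k → Fin n) : K :=
  (V.submatrix id f).det

/-- the exponents of the monomials in the minors which have degree `k` in every column -/
def Mon (k n : ℕ) : Type :=
  {m : (Fin k → Fin n) → ℕ // ∀ i, ∑ f, m f * (univ.filter fun l => f l = i).card = k}

/-- the anticanonical height: the Weil height defined by all monomials in the minors which have
degree `k` in every column -/
noncomputable def ht {k n : ℕ} (V : Matrix (Fin k) (Fin n) ℚ) : ℝ :=
  Height.mulHeight fun m : Mon k n => ∏ f, minor V f ^ m.1 f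

/-- the weights of the columns are generic, and stability for these weights implies
semistability for equal weights -/
structure Weights (k n : ℕ) (θ : Fin n → ℕ) : Prop where
  generic : ∀ (A : Finset (Fin n)) (r : ℕ), 0 < r → r < k → k * ∑ i ∈ A, θ i ≠ r * ∑ i, θ i
  near : ∀ (A : Finset (Fin n)) (r : ℕ), r < k → r * n < k * A.card →
    r * ∑ i, θ i < k * ∑ i ∈ A, θ i

/-- the stable matrices: the columns in a subspace `W` have at most the share `dim W / k` of the
total weight (equality is impossible for `0 < dim W < k`, because the weights are generic) -/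
def Stable {K : Type} [Field K] {k n : ℕ} (θ : Fin n → ℕ) (V : Matrix (Fin k) (Fin n) K) : Prop :=
  ∀ (W : Submodule K (Fin k → K)) (A : Finset (Fin n)), (∀ i ∈ A, (fun j => V j i) ∈ W) →
    k * ∑ i ∈ A, θ i ≤ finrank K W * ∑ i, θ i

/-- positive continuous functions on `X(K)`, where `X` is the quotient of the stable matrices by
`GL_k` and the scalings of the columns -/
structure LocalFactor {K : Type} [NormedField K] {k n : ℕ} (θ : Fin n → ℕ)
    (φ : Matrix (Fin k) (Fin n) K → ℝ) : Prop where
  positive : ∀ V, Stable θ V → 0 < φ V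
  continuous : ContinuousOn φ {V | Stable θ V}
  invariant : ∀ V, Stable θ V → ∀ (g : Matrix (Fin k) (Fin k) K) (t : Fin n → K), g.det ≠ 0 →
    (∀ i, t i ≠ 0) → φ (g * V * Matrix.diagonal t) = φ V

instance (p : Nat.Primes) : Fact (p : ℕ).Prime := ⟨p.2⟩

/-- matrices which represent the same point: change of the basis of `ℚ^k`, scaling of the
columns -/
def Equiv {k n : ℕ} (V V' : Matrix (Fin k) (Fin n) ℚ) : Prop :=
  ∃ (g : Matrix (Fin k) (Fin k) ℚ) (t : Fin n → ℚ), g.det ≠ 0 ∧ (∀ i, t i ≠ 0) ∧
    V' = g * V * Matrix.diagonal t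

/-- the rational points (as classes of matrices) of height at most `B` on the open set where no
maximal minor vanishes, for the height `ht` multiplied by the local factors `φ₀` at the real place
and `φ p` at the primes `p` in `S` -/
def points {k n : ℕ} (S : Finset Nat.Primes) (φ₀ : Matrix (Fin k) (Fin n) ℝ → ℝ)
    (φ : ∀ p : Nat.Primes, Matrix (Fin k) (Fin n) ℚ_[p] → ℝ) (B : ℝ) :
    Set (Set (Matrix (Fin k) (Fin n) ℚ)) :=
  {P | ∃ V : Matrix (Fin k) (Fin n) ℚ, (∀ f : Fin k → Fin n, Function.Injective f → minor V f ≠ 0) ∧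
    P = {V' | Equiv V V'} ∧
      ht V * (φ₀ (V.map ((↑) : ℚ → ℝ)) * ∏ p ∈ S, φ p (V.map ((↑) : ℚ → ℚ_[p]))) ≤ B}

theorem stable_iff {K : Type} [Field K] {k n : ℕ} (θ : Fin n → ℕ) (V : Matrix (Fin k) (Fin n) K) :
    Run7.h3.PM.Sst θ V ↔ Stable θ V := by
  classical
  constructor
  · intro h W A hA
    have h1 := h W
    rw [mul_comm (finrank K W)]
    refine le_trans (Nat.mul_le_mul_left k ?_) h1
    rw [← Run7.h3.PM.tw_eq_sum]
    exact Run7.h3.PM.tw_mono θ fun i hi => hA i hi
  · intro h W
    have h1 := h W (univ.filter fun i => V.col i ∈ W) fun i hi => (mem_filter.1 hi).2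
    rw [mul_comm (finrank K W), ← Run7.h3.PM.tw_eq_sum] at h1
    refine le_trans (Nat.mul_le_mul_left k (Run7.h3.PM.tw_mono θ ?_)) h1
    intro i hi
    rw [mem_coe, mem_filter]
    exact ⟨mem_univ _, hi⟩

theorem Weights.adm {k n : ℕ} (hk : 0 < k) {θ : Fin n → ℕ} (h : Weights k n θ) :
    Run7.h3.PM.Adm k θ := by
  classical
  have htw : ∀ S : Set (Fin n), Run7.h3.PM.tw θ S = ∑ i ∈ S.toFinset, θ i := by
    intro S
    rw [← Run7.h3.PM.tw_eq_sum, Set.coe_toFinset]
  have hcd : ∀ S : Set (Fin n), S.ncard = S.toFinset.card := fun S => Set.ncard_eq_toFinset_card' S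
  have hnear : ∀ (S : Set (Fin n)) (r : ℕ), r ≤ k → Fintype.card (Fin n) * r < k * S.ncard →
      (∑ x, θ x) * r < k * Run7.h3.PM.tw θ S := by
    intro S r hr h1
    rw [Fintype.card_fin, mul_comm, hcd] at h1
    rcases Nat.lt_or_ge r k with h2 | h2
    · rw [mul_comm, htw]
      exact h.near _ r h2 h1
    · have h3 : r = k := le_antisymm hr h2
      subst h3
      have h4 := Nat.lt_of_mul_lt_mul_left h1
      have h5 := card_le_univ S.toFinset
      rw [Fintype.card_fin] at h5
      omega
  refine ⟨fun x => ?_, fun S r hr h1 => ?_, fun S r h1 => ?_, hnear⟩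
  · have h1 := h.near {x} 0 hk (by simp [hk])
    rw [zero_mul, sum_singleton] at h1
    exact Nat.pos_of_mul_pos_left h1
  · by_contra h0
    refine h.generic S.toFinset r (Nat.pos_of_ne_zero h0) hr ?_
    rw [← htw, h1, mul_comm]
  · by_contra hc
    push Not at hc
    have hrk : r < k := by
      by_contra h2
      push Not at h2
      have h3 := Run7.h3.PM.tw_le θ S
      have h4 : k * Run7.h3.PM.tw θ S ≤ k * ∑ x, θ x := Nat.mul_le_mul_left _ h3
      have h5 : (∑ x, θ x) * k ≤ (∑ x, θ x) * r := Nat.mul_le_mul_left _ h2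
      have h6 : k * ∑ x, θ x = (∑ x, θ x) * k := mul_comm _ _
      omega
    have h2 := Set.ncard_add_ncard_compl S
    rw [Nat.card_eq_fintype_card] at h2
    have h3 := Run7.h3.PM.tw_compl θ S
    obtain ⟨r', hr'⟩ : ∃ r', k = r + r' := ⟨k - r, by omega⟩
    have h4 := hnear Sᶜ r' (by omega) (by
      have h5 : Fintype.card (Fin n) * (r + r') = k * Fintype.card (Fin n) := by
        rw [← hr', mul_comm]
      have h6 : k * Fintype.card (Fin n) = k * S.ncard + k * Sᶜ.ncard := by
        rw [← h2, mul_add]
      nlinarith)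
    have h7 : (∑ x, θ x) * (r + r') = k * ∑ x, θ x := by rw [← hr', mul_comm]
    have h8 : k * ∑ x, θ x = k * Run7.h3.PM.tw θ S + k * Run7.h3.PM.tw θ Sᶜ := by
      rw [← h3, mul_add]
    nlinarith

/-- **Manin's conjecture over `ℚ` for the smooth quotients `(ℙ^(k-1))^n // SL_k`, for all adelic
anticanonical heights.** -/
theorem result (k n : ℕ) (hk : 2 ≤ k) (hn : k + 2 ≤ n) (hn5 : 5 ≤ n) :
    (∀ o : Fin n, Weights k n fun i => if i = o then k + 1 else k) ∧
    (Nat.Coprime k n → Weights k n fun _ => 1) ∧
    ∀ θ : Fin n → ℕ, Weights k n θ → ∀ (S : Finset Nat.Primes)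
      (φ₀ : Matrix (Fin k) (Fin n) ℝ → ℝ)
      (φ : ∀ p : Nat.Primes, Matrix (Fin k) (Fin n) ℚ_[p] → ℝ),
      LocalFactor θ φ₀ → (∀ p ∈ S, LocalFactor θ (φ p)) → ∃ c : ℝ, 0 < c ∧
        Tendsto (fun B : ℝ => ((points S φ₀ φ B).ncard : ℝ) / (B * Real.log B ^ (n - 1)))
          atTop (𝓝 c) := by
  classical
  refine ⟨fun o => ?_, fun hcop => ?_, fun θ hθ S φ₀ φ h₀ h => ?_⟩
  · have h1 : ∀ A : Finset (Fin n), ∑ i ∈ A, (if i = o then k + 1 else k) =
        k * A.card + if o ∈ A then 1 else 0 := Run7.h3.PM.sum_wo o
    have h2 := h1 univ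
    rw [card_univ, Fintype.card_fin, if_pos (mem_univ o)] at h2
    refine ⟨fun A r hr0 hrk h => ?_, fun A r hrk h => ?_⟩
    · rw [h2] at h
      have h3 : k ∣ r * (k * n + 1) := Dvd.intro _ h
      have h4 : Nat.Coprime k (k * n + 1) := by
        rw [Nat.coprime_mul_left_add_right]
        exact Nat.coprime_one_right k
      have := Nat.eq_zero_of_dvd_of_lt (h4.dvd_of_dvd_mul_right h3) hrk
      omega
    · rw [h2, h1]
      have h3 : k * (r * n + 1) ≤ k * (k * A.card) := Nat.mul_le_mul_left k (by omega)
      have h4 : k * (k * A.card) ≤ k * (k * A.card + if o ∈ A then 1 else 0) :=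
        Nat.mul_le_mul_left k (Nat.le_add_right _ _)
      nlinarith
  · refine ⟨fun A r hr0 hrk h => ?_, fun A r hrk h => ?_⟩
    · simp only [sum_const, card_univ, Fintype.card_fin, smul_eq_mul, mul_one] at h
      have h3 : k ∣ r * n := Dvd.intro _ h
      have := Nat.eq_zero_of_dvd_of_lt (hcop.dvd_of_dvd_mul_right h3) hrk
      omega
    · simp only [sum_const, card_univ, Fintype.card_fin, smul_eq_mul, mul_one]
      exact h
  · obtain ⟨m', rfl⟩ : ∃ m', n = k + (m' + 1) := ⟨n - k - 1, by omega⟩
    have hLF : ∀ {K : Type} [NormedField K] {φ : Matrix (Fin k) (Fin (k + (m' + 1))) K → ℝ},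
        LocalFactor θ φ → Run7.h3.PM.LF θ φ := by
      intro K _ φ hφ
      have hset : {M : Matrix (Fin k) (Fin (k + (m' + 1))) K | Run7.h3.PM.Sst θ M} =
          {V | Stable θ V} := by
        ext V
        exact stable_iff θ V
      refine ⟨fun M hM => hφ.positive M ((stable_iff θ M).1 hM), ?_, fun M hM g t hg ht =>
        hφ.invariant M ((stable_iff θ M).1 hM) g t hg ht⟩
      rw [hset]
      exact hφ.continuous
    obtain ⟨c, hc, h1⟩ := Run7.h3.PM.adl (ι := Fin (k + (m' + 1))) hk (by omega) hn5
      (Fintype.card_fin _) (hθ.adm (by omega)) S (hLF h₀) fun p hp => hLF (h p hp)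
    exact ⟨c, hc, h1⟩

end Pool.Agent.Results.MP_1acd66_nt.ConfigurationsAllHeights
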