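import Pool.Agent.Run7.h3.OM.Low2

/-!
# The order of magnitude of Manin's conjecture for configurations over all number fields

Let `F` be a number field, `2 ≤ k`, `k + 2 ≤ n`, `5 ≤ n`, and let the `n` columns of the
`k × n` matrices be divided into `s` nonempty blocks, the block `b` having `n_b` columns. The
varieties `X` considered here are the quotients `(ℙ^(k n_1 - 1) × ... × ℙ^(k n_s - 1)) // SL_k`,
which are also the quotients of the Grassmannian `G(k, n)` by the torus `𝔾_m^s` acting by the
scalings of the blocks. When every block is one column, `X` is the space of configurations of `n`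
points in `ℙ^(k - 1)`; for `k = 2`, `n = 5` it is the quintic del Pezzo surface. The Cox ring of `X`
is the ring generated by the maximal minors of the matrix, the class of a divisor is the vector of
its degrees in the `s` blocks, and the canonical class is `-(k n_1, ..., k n_s)`.

The open set `U` of `X` is the one where no maximal minor vanishes. Its rational points are the
`k × n` matrices over `F` with nonzero maximal minors, up to the left action of `GL_k(F)` and the
multiplication of the blocks by elements of `F*`. The height is the Weil height relative to `F` given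
by all the monomials of the anticanonical degree in the minors.

The theorem: the number of points of height at most `B` in `U` is at most `C B (log B) ^ (s - 1)`, and
there is `c > 0` such that in every nonempty open subset of `U` it is at least `c B (log B) ^ (s - 1)`
for all large `B`: this is the order of magnitude predicted by Manin's conjecture, over every number
field.
-/

set_option autoImplicit false

namespace Pool.Agent.Results.MP_1acd66_nt.ConfigurationsOrderNumberFields

open Finset

/-- the maximal minor of `V` with the columns `f 0, f 1, ..., f (k - 1)` -/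
def minor {F : Type} [Field F] {k n : ℕ} (V : Matrix (Fin k) (Fin n) F) (f : Fin k → Fin n) : F :=
  (V.submatrix id f).det

/-- the exponents of the monomials in the minors which have degree `d b` in the block `b`; the
block of the column `i` is `β i` -/
def Mon {n s : ℕ} (k : ℕ) (β : Fin n → Fin s) (d : Fin s → ℕ) : Type :=
  {m : (Fin k → Fin n) → ℕ // ∀ b, ∑ f, m f * (univ.filter fun l => β (f l) = b).card = d b}

/-- the Weil height relative to `F` defined by all monomials of degree `d` in the minors -/
noncomputable def ht {F : Type} [Field F] [NumberField F] {k n s : ℕ} (β : Fin n → Fin s)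
    (d : Fin s → ℕ) (V : Matrix (Fin k) (Fin n) F) : ℝ :=
  Height.mulHeight fun m : Mon k β d => ∏ f, minor V f ^ m.1 f

/-- matrices which represent the same point: change of the basis of `F^k`, scaling of the blocks -/
def Equiv {F : Type} [Field F] {k n s : ℕ} (β : Fin n → Fin s)
    (V V' : Matrix (Fin k) (Fin n) F) : Prop :=
  ∃ (g : Matrix (Fin k) (Fin k) F) (t : Fin s → F), g.det ≠ 0 ∧ (∀ b, t b ≠ 0) ∧
    V' = g * V * Matrix.diagonal fun i => t (β i)

/-- the number of the columns in the block `b` -/
def blk {n s : ℕ} (β : Fin n → Fin s) (b : Fin s) : ℕ := (univ.filter fun i => β i = b).card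

/-- the `F`-rational points (as classes of matrices) of anticanonical height at most `B` on the open
set where no maximal minor vanishes -/
def points (F : Type) [Field F] [NumberField F] {n s : ℕ} (k : ℕ) (β : Fin n → Fin s)
    (B : ℝ) : Set (Set (Matrix (Fin k) (Fin n) F)) :=
  {P | ∃ V : Matrix (Fin k) (Fin n) F, (∀ f : Fin k → Fin n, Function.Injective f → minor V f ≠ 0) ∧
    P = {V' | Equiv β V V'} ∧ ht β (fun b => k * blk β b) V ≤ B}

/-- the points of `points F k β B` which have a representative `V` with `G(V) ≠ 0` (as `G` runs
through the nonzero polynomials, these open sets are contained in any given nonempty open set) -/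
def openPoints (F : Type) [Field F] [NumberField F] {n s : ℕ} (k : ℕ) (β : Fin n → Fin s)
    (G : MvPolynomial (Fin k × Fin n) F) (B : ℝ) : Set (Set (Matrix (Fin k) (Fin n) F)) :=
  {P ∈ points F k β B | ∃ V ∈ P, MvPolynomial.eval (fun p => V p.1 p.2) G ≠ 0}

/-- **The order of magnitude of Manin's conjecture over number fields for the quotients of products
of projective spaces by `SL_k`.** -/
theorem result (F : Type) [Field F] [NumberField F] (k n s : ℕ) (hk : 2 ≤ k) (hn : k + 2 ≤ n)
    (hn5 : 5 ≤ n) (β : Fin n → Fin s) (hβ : Function.Surjective β) :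
    ∃ c C : ℝ, 0 < c ∧
      (∀ B : ℝ, 3 ≤ B → (points F k β B).Finite ∧
        ((points F k β B).ncard : ℝ) ≤ C * B * Real.log B ^ (s - 1)) ∧
      ∀ G : MvPolynomial (Fin k × Fin n) F, G ≠ 0 → ∃ B₀ : ℝ, ∀ B : ℝ, B₀ ≤ B →
        c * B * Real.log B ^ (s - 1) ≤ ((openPoints F k β G B).ncard : ℝ) := by
  obtain ⟨d, hd⟩ : ∃ d : Fin s → ℕ, d = fun b => k * blk β b := ⟨_, rfl⟩
  have hdb : ∀ b, d b = k * (univ.filter fun i => β i = b).card := fun b => by rw [hd]; rfl
  have hd0 : ∀ b, 0 < d b := by
    intro b
    obtain ⟨i, hi⟩ := hβ b
    rw [hdb]
    exact Nat.mul_pos (by omega) (card_pos.2 ⟨i, mem_filter.2 ⟨mem_univ _, hi⟩⟩)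
  have hcard : ∑ b, (univ.filter fun i => β i = b).card = n := by
    have h := card_eq_sum_card_fiberwise (s := (univ : Finset (Fin n))) (t := univ) (f := β)
      fun _ _ => mem_univ _
    rw [card_univ, Fintype.card_fin] at h
    exact h.symm
  have hsum : ∑ b, d b = k * n := by
    rw [sum_congr rfl fun b _ => hdb b, ← mul_sum, hcard]
  obtain ⟨C, hC, h⟩ := Run7.h3.GT.main F (k := k) (by omega)
    (by rw [Fintype.card_fin]; omega) β hβ d ⟨n, hsum⟩ hd0 (fun b => by
      have h1 : 0 < (univ.filter fun i => β i = b).card := by
        obtain ⟨i, hi⟩ := hβ b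
        exact card_pos.2 ⟨i, mem_filter.2 ⟨mem_univ _, hi⟩⟩
      rw [hsum, hdb]
      have h2 : k * (univ.filter fun i => β i = b).card < n * (univ.filter fun i => β i = b).card :=
        Nat.mul_lt_mul_of_pos_right (by omega) h1
      calc k * (k * (univ.filter fun i => β i = b).card) <
            k * (n * (univ.filter fun i => β i = b).card) := Nat.mul_lt_mul_of_pos_left h2 (by omega)
        _ = _ := by ring) (a := 1) one_pos (by
      intro b
      have h1 : ∀ b, (1 : ℝ) * d b - k * ((univ.filter fun i => β i = b).card : ℝ) = 0 := by
        intro b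
        rw [hdb]
        push_cast
        ring
      simp only [h1]
      simp)
  rw [Fintype.card_fin] at h
  obtain ⟨c, hc, hlow⟩ := Run7.h3.OM.lower F hk (by rw [Fintype.card_fin]; omega)
    (by rw [Fintype.card_fin]; omega) β hβ d hdb fun T hT => (h T hT).1
  rw [Fintype.card_fin] at hlow
  subst hd
  refine ⟨c, C * 2 ^ (s - 1), hc, fun B hB => ?_, fun G hG => ?_⟩
  · have h1 := h B (by linarith)
    refine ⟨h1.1, h1.2.trans ?_⟩
    have hl : 1 ≤ Real.log B := by
      rw [Real.le_log_iff_exp_le (by linarith)]
      have := Real.exp_one_lt_d9
      linarith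
    rw [Real.rpow_one]
    calc C * B * (1 + Real.log B) ^ (s - 1) ≤ C * B * (2 * Real.log B) ^ (s - 1) :=
          mul_le_mul_of_nonneg_left (pow_le_pow_left₀ (by linarith) (by linarith) _)
            (by positivity)
      _ = _ := by
          rw [mul_pow]
          ring
  · obtain ⟨B₀, hB₀, h2⟩ := hlow G hG
    exact ⟨B₀, fun B hB => h2 B hB⟩

end Pool.Agent.Results.MP_1acd66_nt.ConfigurationsOrderNumberFields
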